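import Pool.Agent.V11304.EvenDelay.A

set_option autoImplicit false

open Pool.Agent.V11304.EvenDelay

namespace Pool.Agent.Results.MP_975ca8_an.Dichotomy

/-- For even `l` and every periodic `B ≥ 0`: either all positive solutions are bounded or all
positive solutions are unbounded. -/
theorem result : ∀ (l k : ℕ) (B : ℕ → ℝ), Even l → 0 < k → (∀ n, 0 ≤ B n) →
    (∀ n, B (n + k) = B n) →
    (∀ X, IsSol l B X → Bdd X) ∨ (∀ X, IsSol l B X → ¬ Bdd X) := by
  intro l k B hl hk hB hper
  obtain ⟨b, hb⟩ := per_bdd k hk hper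
  by_cases h : ∃ Y, IsSol l B Y ∧ Bdd Y
  · obtain ⟨Y, hY, hYb⟩ := h
    left
    intro X hX
    exact dichotomy hl hB b hb hX hY hYb
  · push Not at h
    right
    intro X hX hXb
    exact h X hX hXb

end Pool.Agent.Results.MP_975ca8_an.Dichotomy
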