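import Pool.Agent.V11304.EvenDelay.A

set_option autoImplicit false

open Pool.Agent.V11304.EvenDelay

namespace Pool.Agent.Results.MP_975ca8_an.EvenDelay

/-- For even `l` and `B ≥ 0`: if `B ≥ b0` on one parity class and `B ≤ b1 < b0` on the other,
then every positive solution is unbounded. For periods `k = 2` (`B_0 ≠ B_1`) this covers all
data. -/
theorem result : ∀ (l : ℕ) (B : ℕ → ℝ) (b0 b1 : ℝ), Even l → (∀ n, 0 ≤ B n) → b1 < b0 →
    (((∀ n, Even n → b0 ≤ B n) ∧ ∀ n, ¬ Even n → B n ≤ b1) ∨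
      ((∀ n, ¬ Even n → b0 ≤ B n) ∧ ∀ n, Even n → B n ≤ b1)) →
    ∀ X, IsSol l B X → ¬ Bdd X := by
  intro l B b0 b1 hl hB hlt h X hX
  exact growth' hl hB b0 b1 hlt h hX

end Pool.Agent.Results.MP_975ca8_an.EvenDelay
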