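import Pool.Agent.V11304.EvenDelay.A

set_option autoImplicit false

open Pool.Agent.V11304.EvenDelay

namespace Pool.Agent.Results.MP_975ca8_an.OddDelay

/-- For odd `l` and periodic `B` that vanishes on one parity class `n ≡ e` mod 2 and is positive on
the other, every positive solution is bounded. -/
theorem result : ∀ (l k : ℕ) (B : ℕ → ℝ) (e : ℕ), Odd l → 0 < k → (∀ n, B (n + k) = B n) → e < 2 →
    (∀ n, n % 2 = e → B n = 0) → (∀ n, n % 2 ≠ e → 0 < B n) →
    ∀ X, IsSol l B X → Bdd X := by
  intro l k B e hl hk hper he hz hp X hX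
  obtain ⟨b, hb, hlow⟩ := per_low k hk hper e he hp
  exact odd_bounded hl e he b hb hz hlow hX

end Pool.Agent.Results.MP_975ca8_an.OddDelay
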